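import Pool.Agent.Helper379_HC.Stmts
import Pool.Agent.Helper158.Bridge
import Pool.Agent.W326.DU.Aug

set_option autoImplicit false

namespace Pool.Agent.Helper135_HC

open CategoryTheory Function
open Pool.Agent.W326.DU Pool.Agent.Y66.HC Pool.Agent.W386 Pool.Agent.Helper379_HC
open Pool.Agent.Helper158

/-- a module with a partial resolution of length `j` -/
structure St (R : Type) [Ring R] where
  K : Type
  [ag : AddCommGroup K]
  [md : Module R K]
  j : ℕ
  h : FPs R j K

attribute [instance] St.ag St.md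

/-- a projective cover, finitely generated if `j > 0` -/
structure Cov (R : Type) [Ring R] (s : St R) where
  P : Type
  [ag : AddCommGroup P]
  [md : Module R P]
  f : P →ₗ[R] s.K
  surj : Surjective f
  proj : Module.Projective R P
  fin : 0 < s.j → Module.Finite R P
  ker : FPs R (s.j - 1) (LinearMap.ker f)

attribute [instance] Cov.ag Cov.md Cov.proj

theorem exists_cov {R : Type} [Ring R] (s : St R) : Nonempty (Cov R s) := by
  obtain ⟨K, j, h⟩ := s
  cases j with
  | zero =>
    refine ⟨⟨K →₀ R, Finsupp.linearCombination R id, ?_, inferInstance, ?_, trivial⟩⟩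
    · exact Finsupp.linearCombination_id_surjective R K
    · intro h
      exact absurd h (lt_irrefl _)
  | succ j =>
    obtain ⟨k, f, hf, hk⟩ := h
    exact ⟨⟨Fin k → R, f, hf, inferInstance, fun _ => inferInstance, hk⟩⟩

noncomputable def cov {R : Type} [Ring R] (s : St R) : Cov R s := Classical.choice (exists_cov s)

noncomputable def St.next {R : Type} [Ring R] (s : St R) : St R :=
  ⟨LinearMap.ker (cov s).f, s.j - 1, (cov s).ker⟩

noncomputable def sq {R : Type} [Ring R] (s : St R) : ℕ → St R
  | 0 => s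
  | i + 1 => (sq s i).next

theorem sq_j {R : Type} [Ring R] (s : St R) (i : ℕ) : (sq s i).j = s.j - i := by
  induction i with
  | zero => rfl
  | succ i ih =>
    change (sq s i).j - 1 = _
    rw [ih]
    omega

section

variable {R : Type} [Ring R] (s : St R)

def PP (s : St R) : ℕ → Type
  | 0 => R
  | i + 1 => (cov (sq s i)).P

noncomputable instance ppAG : ∀ i, AddCommGroup (PP s i)
  | 0 => inferInstanceAs (AddCommGroup R)
  | i + 1 => inferInstanceAs (AddCommGroup (cov (sq s i)).P)

noncomputable instance ppMd : ∀ i, Module R (PP s i)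
  | 0 => inferInstanceAs (Module R R)
  | i + 1 => inferInstanceAs (Module R (cov (sq s i)).P)

instance ppPr : ∀ i, Module.Projective R (PP s i)
  | 0 => inferInstanceAs (Module.Projective R R)
  | i + 1 => inferInstanceAs (Module.Projective R (cov (sq s i)).P)

theorem ppFin : ∀ i, i ≤ s.j → Module.Finite R (PP s i)
  | 0, _ => inferInstanceAs (Module.Finite R R)
  | i + 1, h => (cov (sq s i)).fin (by rw [sq_j]; omega)

noncomputable def dd (ι : s.K →ₗ[R] R) : ∀ i, PP s (i + 1) →ₗ[R] PP s i
  | 0 => ι ∘ₗ (cov s).f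
  | i + 1 => (LinearMap.ker (cov (sq s i)).f).subtype ∘ₗ (cov (sq s (i + 1))).f

theorem dd_ex (ι : s.K →ₗ[R] R) (hι : Injective ι) : ∀ (i : ℕ) (x : PP s (i + 1)),
    dd s ι i x = 0 ↔ x ∈ LinearMap.range (dd s ι (i + 1)) := by
  have key : ∀ (i : ℕ) (x : PP s (i + 1)), (cov (sq s i)).f x = 0 ↔
      x ∈ LinearMap.range (dd s ι (i + 1)) := by
    intro i x
    constructor
    · intro hx
      obtain ⟨y, hy⟩ := (cov (sq s (i + 1))).surj ⟨x, hx⟩
      refine ⟨y, ?_⟩
      exact congrArg Subtype.val hy
    · rintro ⟨y, rfl⟩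
      exact ((cov (sq s (i + 1))).f y).2
  intro i x
  rw [← key]
  cases i with
  | zero =>
    change ι ((cov s).f x) = 0 ↔ (cov s).f x = 0
    rw [map_eq_zero_iff ι hι]
  | succ i =>
    exact ⟨fun h => Subtype.ext h, fun h => congrArg Subtype.val h⟩

end

theorem span_of {G : Type} [Group G] {M : Type} [AddCommGroup M] [Module (ZG G) M]
    (hM : Module.Finite (ZG G) M) :
    ∃ s : Finset M, ∀ x : M, x ∈ Submodule.span ℤ
      (Set.range (fun p : G × s => (MonoidAlgebra.of ℤ G p.1 : ZG G) • (p.2 : M))) := by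
  obtain ⟨s, hs⟩ := hM.1
  refine ⟨s, fun x => ?_⟩
  have hx : x ∈ Submodule.span (ZG G) (s : Set M) := by rw [hs]; trivial
  have hsm : ∀ (a : ZG G) (y : M), y ∈ Submodule.span ℤ
      (Set.range (fun p : G × s => (MonoidAlgebra.of ℤ G p.1 : ZG G) • (p.2 : M))) →
      a • y ∈ Submodule.span ℤ
      (Set.range (fun p : G × s => (MonoidAlgebra.of ℤ G p.1 : ZG G) • (p.2 : M))) := by
    intro a y hy
    induction a using MonoidAlgebra.induction_on with
    | of g =>
      induction hy using Submodule.span_induction with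
      | mem z hz =>
        obtain ⟨⟨h, t⟩, rfl⟩ := hz
        refine Submodule.subset_span ⟨⟨g * h, t⟩, ?_⟩
        change MonoidAlgebra.of ℤ G (g * h) • (t : M) = _
        rw [map_mul, mul_smul]
      | zero => rw [smul_zero]; exact zero_mem _
      | add u v _ _ hu hv => rw [smul_add]; exact add_mem hu hv
      | smul r u _ hu =>
        rw [smul_comm]
        exact Submodule.smul_mem _ _ hu
    | add a b ha hb => rw [add_smul]; exact add_mem ha hb
    | smul r a ha => rw [smul_assoc]; exact Submodule.smul_mem _ _ ha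
  induction hx using Submodule.span_induction with
  | mem z hz =>
    refine Submodule.subset_span ⟨⟨1, ⟨z, hz⟩⟩, ?_⟩
    change MonoidAlgebra.of ℤ G 1 • z = z
    rw [map_one, one_smul]
  | zero => exact zero_mem _
  | add u v _ _ hu hv => exact add_mem hu hv
  | smul a u _ hu => exact hsm a u hu

theorem augm_of_smul {G : Type} [Group G] (g : G) (x : ZG G) :
    augm G (MonoidAlgebra.of ℤ G g • x) = augm G x := by
  change (MonoidAlgebra.lift ℤ ℤ G (1 : G →* ℤ)) (MonoidAlgebra.of ℤ G g * x) =
    (MonoidAlgebra.lift ℤ ℤ G (1 : G →* ℤ)) x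
  rw [map_mul]
  simp

theorem augm_one {G : Type} [Group G] : augm G (1 : ZG G) = 1 := by
  change (MonoidAlgebra.lift ℤ ℤ G (1 : G →* ℤ)) (1 : ZG G) = 1
  rw [map_one]

theorem augm_mul {G : Type} [Group G] (x y : ZG G) : augm G (x * y) = augm G x * augm G y := by
  change (MonoidAlgebra.lift ℤ ℤ G (1 : G →* ℤ)) (x * y) =
    (MonoidAlgebra.lift ℤ ℤ G (1 : G →* ℤ)) x * (MonoidAlgebra.lift ℤ ℤ G (1 : G →* ℤ)) y
  rw [map_mul]

theorem mem_augI {G : Type} [Group G] (x : ZG G) : x ∈ augI G ↔ augm G x = 0 := by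
  constructor
  · intro hx
    unfold augI IL at hx
    induction hx using Submodule.span_induction with
    | mem z hz =>
      obtain ⟨g, _, rfl⟩ := hz
      change augm G (MonoidAlgebra.of ℤ G g - 1) = 0
      have := augm_of_smul g (1 : ZG G)
      rw [smul_eq_mul, mul_one] at this
      rw [map_sub, this, sub_self]
    | zero => exact map_zero _
    | add u v _ _ hu hv => rw [map_add, hu, hv, add_zero]
    | smul a u _ hu => rw [smul_eq_mul, augm_mul, hu, mul_zero]
  · intro hx
    exact aug_th G Set.univ (by simp) x hx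

theorem augm_surj {G : Type} [Group G] : Surjective (augm G) := by
  intro n
  refine ⟨(n • (1 : ZG G) : ZG G), ?_⟩
  rw [map_zsmul, augm_one]
  simp

/-- TARGET 1 -/
theorem br1 : PropBr1 := by
  intro G _ m hm
  let s : St (ZG G) := ⟨augI G, m, hm⟩
  let ι : s.K →ₗ[ZG G] ZG G := (augI G).subtype
  have hι : Injective ι := Subtype.val_injective
  have hr : Reso (PP s) (dd s ι) (augm G) := by
    refine ⟨?_, ?_, ?_, ?_⟩
    · exact augm_surj
    · intro g x
      exact augm_of_smul g x
    · intro x
      have h1 : augm G x = 0 ↔ x ∈ augI G := (mem_augI x).symm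
      refine h1.trans ⟨?_, ?_⟩
      · intro hx
        obtain ⟨y, hy⟩ := (cov s).surj ⟨x, hx⟩
        exact ⟨y, congrArg Subtype.val hy⟩
      · rintro ⟨y, rfl⟩
        exact ((cov s).f y).2
    · exact dd_ex s ι hι
  refine ⟨hr.pr, ?_⟩
  intro k hk
  obtain ⟨t, ht⟩ := span_of (ppFin s k hk)
  exact ⟨t, ht⟩

end Pool.Agent.Helper135_HC
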