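import Pool.Agent.Helper135_HC.Br1

set_option autoImplicit false

namespace Pool.Agent.Helper135_HC

open CategoryTheory CategoryTheory.Limits Function
open Pool.Agent.W326.DU Pool.Agent.Y66.HC Pool.Agent.W386 Pool.Agent.Helper379_HC
open Pool.Agent.Helper158

section

variable {k G : Type} [CommRing k] [Group G]

theorem rep_exact_conv (S : ShortComplex (Rep.{0} k G)) (h : S.Exact) :
    ∀ x : S.X₂, S.g.hom x = 0 → ∃ y : S.X₁, S.f.hom y = x := by
  have h1 := h.map (forget₂ (Rep.{0} k G) (ModuleCat k))
  exact (ShortComplex.moduleCat_exact_iff _).1 h1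

/-- the module of a representation -/
def AM (X : Rep.{0} k G) : Type := X.ρ.asModule

noncomputable instance (X : Rep.{0} k G) : AddCommGroup (AM X) :=
  inferInstanceAs (AddCommGroup X.ρ.asModule)

noncomputable instance (X : Rep.{0} k G) : Module (MonoidAlgebra k G) (AM X) :=
  inferInstanceAs (Module (MonoidAlgebra k G) X.ρ.asModule)

/-- the identity -/
noncomputable def am (X : Rep.{0} k G) : AM X ≃+ X.V := X.ρ.asModuleEquiv.toAddEquiv

theorem am_smul' (X : Rep.{0} k G) (g : G) (x : X.ρ.asModule) :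
    X.ρ.asModuleEquiv (MonoidAlgebra.of k G g • x) = X.ρ g (X.ρ.asModuleEquiv x) := by
  rw [Representation.asModuleEquiv_map_smul]
  simp

theorem am_smul (X : Rep.{0} k G) (g : G) (x : AM X) :
    am X (MonoidAlgebra.of k G g • x) = X.ρ g (am X x) := am_smul' X g x

theorem am_symm_smul (X : Rep.{0} k G) (g : G) (x : X.V) :
    (am X).symm (X.ρ g x) = MonoidAlgebra.of k G g • (am X).symm x := by
  apply (am X).injective
  rw [am_smul, AddEquiv.apply_symm_apply, AddEquiv.apply_symm_apply]

/-- a morphism of representations as a linear map over the group ring -/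
noncomputable def toLin' {A B : Rep.{0} k G} (f : A ⟶ B) :
    A.ρ.asModule →ₗ[MonoidAlgebra k G] B.ρ.asModule :=
  mkLin (k := k) (B.ρ.asModuleEquiv.symm.toLinearMap ∘ₗ f.hom.toLinearMap ∘ₗ
    A.ρ.asModuleEquiv.toLinearMap) (by
    intro g x
    change B.ρ.asModuleEquiv.symm (f.hom (A.ρ.asModuleEquiv (MonoidAlgebra.of k G g • x))) =
      MonoidAlgebra.of k G g • B.ρ.asModuleEquiv.symm (f.hom (A.ρ.asModuleEquiv x))
    rw [← Representation.asModuleEquiv_symm_map_rho, ← Rep.hom_comm_apply,
      Representation.asModuleEquiv_map_smul]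
    simp)

/-- a morphism of representations as a linear map over the group ring -/
noncomputable def toLin {A B : Rep.{0} k G} (f : A ⟶ B) : AM A →ₗ[MonoidAlgebra k G] AM B :=
  toLin' f

theorem toLin_apply {A B : Rep.{0} k G} (f : A ⟶ B) (x : AM A) :
    toLin f x = (am B).symm (f.hom (am A x)) := rfl

theorem toLin_eq_zero {A B : Rep.{0} k G} (f : A ⟶ B) (x : AM A) :
    toLin f x = 0 ↔ f.hom (am A x) = 0 := by
  rw [toLin_apply, map_eq_zero_iff _ (am B).symm.injective]

theorem toLin_ex (S : ShortComplex (Rep.{0} k G)) (h : S.Exact) :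
    LinearMap.ker (toLin S.g) = LinearMap.range (toLin S.f) := by
  ext x
  rw [LinearMap.mem_ker, toLin_eq_zero, LinearMap.mem_range]
  constructor
  · intro hx
    obtain ⟨y, hy⟩ := rep_exact_conv S h _ hx
    refine ⟨(am S.X₁).symm y, ?_⟩
    rw [toLin_apply, AddEquiv.apply_symm_apply, hy, AddEquiv.symm_apply_apply]
  · rintro ⟨y, rfl⟩
    rw [toLin_apply, AddEquiv.apply_symm_apply]
    have := congrArg (fun f => f.hom (am S.X₁ y)) S.zero
    exact this

theorem proj_asModule' (X : Rep.{0} k G) [Projective X] :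
    Module.Projective (MonoidAlgebra k G) X.ρ.asModule := by
  let F := X.ρ.asModule →₀ MonoidAlgebra k G
  let q : F →ₗ[MonoidAlgebra k G] X.ρ.asModule :=
    Finsupp.linearCombination (MonoidAlgebra k G) id
  have hq : Surjective q := Finsupp.linearCombination_id_surjective _ _
  let e : FMk k (G := G) F ⟶ X := mkHom (k := k) (σ := X.ρ)
    (X.ρ.asModuleEquiv.toLinearMap ∘ₗ (q.restrictScalars k)) (by
    intro g x
    change X.ρ.asModuleEquiv (q (MonoidAlgebra.of k G g • x)) = X.ρ g (X.ρ.asModuleEquiv (q x))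
    rw [map_smul, Representation.asModuleEquiv_map_smul]
    simp)
  have he : Epi e := by
    rw [Rep.epi_iff_surjective]
    intro x
    obtain ⟨y, hy⟩ := hq (X.ρ.asModuleEquiv.symm x)
    refine ⟨y, ?_⟩
    change X.ρ.asModuleEquiv (q y) = x
    rw [hy]
    simp
  obtain ⟨s, hs⟩ := Projective.factors (𝟙 X) e
  let s' : X.ρ.asModule →ₗ[MonoidAlgebra k G] F := mkLin (k := k) (s.hom.toLinearMap ∘ₗ
    X.ρ.asModuleEquiv.toLinearMap) (by
    intro g x
    change s.hom (X.ρ.asModuleEquiv (MonoidAlgebra.of k G g • x)) =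
      MonoidAlgebra.of k G g • s.hom (X.ρ.asModuleEquiv x)
    rw [Representation.asModuleEquiv_map_smul]
    have := Rep.hom_comm_apply s g (X.ρ.asModuleEquiv x)
    rw [Representation.asAlgebraHom_of]
    exact this)
  refine Module.Projective.of_split s' q ?_
  apply LinearMap.ext
  intro x
  have := congrArg (fun f => f.hom (X.ρ.asModuleEquiv x)) hs
  have h2 : X.ρ.asModuleEquiv (q (s' x)) = X.ρ.asModuleEquiv x := this
  exact X.ρ.asModuleEquiv.injective h2

theorem proj_asModule (X : Rep.{0} k G) [Projective X] :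
    Module.Projective (MonoidAlgebra k G) (AM X) := proj_asModule' X

theorem fin_of' (X : Rep.{0} k G) (s : Finset X.V)
    (hs : ∀ x : X.V, x ∈ AddSubgroup.closure
      (Set.range (fun p : G × s => X.ρ p.1 (p.2 : X.V)))) :
    Module.Finite (MonoidAlgebra k G) (AM X) := by
  classical
  refine ⟨⟨s.image (am X).symm, ?_⟩⟩
  rw [eq_top_iff]
  have key : ∀ y : X.V, (am X).symm y ∈ Submodule.span (MonoidAlgebra k G)
      ((s.image (am X).symm : Finset (AM X)) : Set (AM X)) := by
    intro y
    have := hs y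
    induction this using AddSubgroup.closure_induction with
    | mem z hz =>
      obtain ⟨⟨g, t⟩, rfl⟩ := hz
      change (am X).symm (X.ρ g t) ∈ _
      rw [am_symm_smul]
      refine Submodule.smul_mem _ _ (Submodule.subset_span ?_)
      simp only [Finset.coe_image]
      exact ⟨t, t.2, rfl⟩
    | zero => rw [map_zero]; exact zero_mem _
    | add u v _ _ hu hv => rw [map_add]; exact add_mem hu hv
    | neg u _ hu =>
      rw [map_neg]
      exact neg_mem hu
  intro x _
  have := key (am X x)
  rwa [AddEquiv.symm_apply_apply] at this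

end

theorem fps_proj {R : Type} [Ring R] (j : ℕ) : ∀ (P : Type) [AddCommGroup P] [Module R P],
    Module.Projective R P → Module.Finite R P → FPs R j P := by
  induction j with
  | zero => intros; trivial
  | succ j ih =>
    intro P _ _ hP hF
    obtain ⟨k, f, hf⟩ := Module.Finite.exists_fin' R P
    obtain ⟨s, hs⟩ := Module.projective_lifting_property f (LinearMap.id : P →ₗ[R] P) hf
    have hs' : ∀ x, f (s x) = x := fun x => by
      have := LinearMap.congr_fun hs x
      exact this
    let r : (Fin k → R) →ₗ[R] LinearMap.ker f := (LinearMap.id - s ∘ₗ f).codRestrict _ (by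
      intro b
      rw [LinearMap.mem_ker]
      simp [hs'])
    have hr : ∀ b, ((r b : LinearMap.ker f) : Fin k → R) = b - s (f b) := fun b => rfl
    have hrs : r ∘ₗ (LinearMap.ker f).subtype = LinearMap.id := by
      ext x : 1
      apply Subtype.ext
      rw [LinearMap.comp_apply, hr]
      have : f ((LinearMap.ker f).subtype x) = 0 := x.2
      rw [this, map_zero, sub_zero]
      rfl
    refine ⟨k, f, hf, ih _ ?_ ?_⟩
    · exact Module.Projective.of_split (LinearMap.ker f).subtype r hrs
    · refine Module.Finite.of_surjective r ?_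
      intro x
      exact ⟨x, LinearMap.congr_fun hrs x⟩

theorem fin_of {G : Type} [Group G] (X : Rep.{0} ℤ G)
    (h : ∃ s : Finset X.V, ∀ x : X.V, x ∈ Submodule.span ℤ
      (Set.range (fun p : G × s => X.ρ p.1 (p.2 : X.V)))) :
    Module.Finite (ZG G) (AM X) := by
  obtain ⟨s, hs⟩ := h
  refine fin_of' X s ?_
  intro x
  have := hs x
  induction this using Submodule.span_induction with
  | mem z hz => exact AddSubgroup.subset_closure hz
  | zero => exact zero_mem _
  | add u v _ _ hu hv => exact add_mem hu hv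
  | smul r u _ hu => exact zsmul_mem hu r

/-- TARGET 2 -/
theorem br2 : PropBr2 := by
  intro G _ m ⟨Q, hQ⟩
  have hM : ∀ k ≤ m, ∀ j, FPs (ZG G) j (AM (Q.complex.X k)) := by
    intro k hk j
    have : Projective (Q.complex.X k) := Q.projective k
    exact fps_proj j (AM (Q.complex.X k)) (proj_asModule _) (fin_of _ (hQ k hk))
  have hI : ∀ i k, i + k = m → FPs (ZG G) i (LinearMap.range (toLin (Q.complex.d (k + 1) k))) := by
    intro i
    induction i with
    | zero => intros; trivial
    | succ i ih =>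
      intro k hk
      have h1 := ih (k + 1) (by omega)
      have hex := toLin_ex _ (Q.exact_succ k)
      refine FPs.quot (toLin (Q.complex.d (k + 1) k)).rangeRestrict
        (LinearMap.surjective_rangeRestrict _) ?_ (hM (k + 1) (by omega) _)
      rw [LinearMap.ker_rangeRestrict]
      have hex' : LinearMap.ker (toLin (Q.complex.d (k + 1) k)) =
        LinearMap.range (toLin (Q.complex.d (k + 1 + 1) (k + 1))) := hex
      rw [hex']
      exact h1
  let p : AM (Q.complex.X 0) →ₗ[ZG G] AM (Rep.trivial ℤ G ℤ) :=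
    toLin (B := Rep.trivial ℤ G ℤ) (Q.π.f 0)
  have hp : Surjective p := by
    have h1 : Epi (Q.π.f 0) := inferInstance
    have h2 : Surjective (Q.π.f 0).hom := (Rep.epi_iff_surjective _).1 h1
    intro t
    obtain ⟨x, hx⟩ := h2 (am (Rep.trivial ℤ G ℤ) t)
    refine ⟨(am (Q.complex.X 0)).symm x, ?_⟩
    have : p ((am (Q.complex.X 0)).symm x) =
      (am (Rep.trivial ℤ G ℤ)).symm ((Q.π.f 0).hom x) := rfl
    rw [this]
    exact (congrArg _ hx).trans (AddEquiv.symm_apply_apply _ _)
  have hpk : LinearMap.ker p = LinearMap.range (toLin (Q.complex.d 1 0)) :=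
    toLin_ex _ Q.exact₀
  have hT : FPs (ZG G) (m + 1) (AM (Rep.trivial ℤ G ℤ)) := by
    refine FPs.quot p hp ?_ (hM 0 (Nat.zero_le _) _)
    rw [hpk]
    exact hI m 0 rfl
  let c : ZG G →ₗ[ZG G] AM (Rep.trivial ℤ G ℤ) := LinearMap.toSpanSingleton (ZG G) _
    ((am (Rep.trivial ℤ G ℤ)).symm (1 : ℤ))
  have hc : ∀ x, am (Rep.trivial ℤ G ℤ) (c x) = (augm G x : ℤ) := by
    intro x
    change am (Rep.trivial ℤ G ℤ) (x • ((am (Rep.trivial ℤ G ℤ)).symm (1 : ℤ))) = _
    induction x using MonoidAlgebra.induction_on with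
    | of g =>
      have h1 := augm_of_smul g (1 : ZG G)
      rw [smul_eq_mul, mul_one, augm_one] at h1
      rw [h1, am_smul, AddEquiv.apply_symm_apply]
      rfl
    | add a b ha hb => rw [add_smul, map_add, map_add, ha, hb]
    | smul r a ha =>
      rw [smul_assoc, map_zsmul, ha]
      exact (map_zsmul (augm G) r a).symm
  have hcs : Surjective c := by
    intro t
    obtain ⟨x, hx⟩ := augm_surj (G := G) (am (Rep.trivial ℤ G ℤ) t)
    refine ⟨x, (am (Rep.trivial ℤ G ℤ)).injective ?_⟩
    rw [hc]
    exact hx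
  have hker : LinearMap.ker c = augI G := by
    ext x
    rw [LinearMap.mem_ker, mem_augI]
    rw [← map_eq_zero_iff _ (am (Rep.trivial ℤ G ℤ)).injective, hc]
  have := FPs.ker_of_cover (R := ZG G) (X := ZG G)
    ⟨1, ⟨(LinearEquiv.funUnique (Fin 1) (ZG G) (ZG G)).symm⟩⟩ hT c hcs
  rw [hker] at this
  exact this

end Pool.Agent.Helper135_HC
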